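import Pool.Agent.Lib.H87.HopfKC.Ent
import Pool.Agent.Lib.H87.HopfKC.Cert.Def

/-!
# Soundness of the Q-terms of the certificate

For a packed matrix `W` the cubic form with tensor `kp 6 W` is twice the second order form
`bQ` evaluated at the two real vectors given by `W`; it is nonnegative at a best splitting.
-/

open Finset

namespace HopfKC

namespace T3

/-- Real part of a packed entry. -/
noncomputable def reA (a : ℕ) : ℤ :=
  bif Nat.beq a 0 then .ofNat 0 else Int.subNatNat (Nat.mod a 1024) 512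

/-- Imaginary part of a packed entry. -/
noncomputable def imA (a : ℕ) : ℤ :=
  bif Nat.beq a 0 then .ofNat 0 else Int.subNatNat (Nat.shiftRight a 10) 512

theorem pr_eq (a : ℕ) (w u : ℤ × ℤ) :
    pr a w u = reA a * (w.1 * u.1 + w.2 * u.2) - imA a * (w.2 * u.1 - w.1 * u.2) := by
  unfold pr reA imA
  cases h : Nat.beq a 0
  · rfl
  · simp

theorem lsum_eq {α : Type} (l : List α) (f : α → ℤ) : lsum l f = (l.map f).sum := by
  induction l with
  | nil => rfl
  | cons a l ih =>
    have : lsum (a :: l) f = f a + lsum l f := rfl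
    rw [this, ih, List.map_cons, List.sum_cons]

/-- Real component `b` of a list of entries. -/
def wr (l : List (ℕ × ℤ × ℤ)) (b : ℕ) : ℤ := (l.map fun e => if e.1 = b then e.2.1 else 0).sum
/-- Imaginary component `b` of a list of entries. -/
def wi (l : List (ℕ × ℤ × ℤ)) (b : ℕ) : ℤ := (l.map fun e => if e.1 = b then e.2.2 else 0).sum

theorem inner_eq (g h : ℕ → ℤ) (x y : ℤ) (l : List (ℕ × ℤ × ℤ)) (hl : ∀ e ∈ l, e.1 < 9) :
    (l.map fun e => g e.1 * (x * e.2.1 + y * e.2.2) - h e.1 * (y * e.2.1 - x * e.2.2)).sum =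
      ∑ d ∈ range 9, (g d * (x * wr l d + y * wi l d) - h d * (y * wr l d - x * wi l d)) := by
  induction l with
  | nil => simp [wr, wi]
  | cons e l ih =>
    have he : e.1 < 9 := hl e (by simp)
    rw [List.map_cons, List.sum_cons, ih fun e' he' => hl e' (by simp [he'])]
    have key : g e.1 * (x * e.2.1 + y * e.2.2) - h e.1 * (y * e.2.1 - x * e.2.2) =
        ∑ d ∈ range 9, if d = e.1 then
          (g d * (x * e.2.1 + y * e.2.2) - h d * (y * e.2.1 - x * e.2.2)) else 0 := by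
      rw [Finset.sum_ite_eq' (range 9) e.1, if_pos (mem_range.2 he)]
    rw [key, ← Finset.sum_add_distrib]
    refine Finset.sum_congr rfl fun d _ => ?_
    simp only [wr, wi, List.map_cons, List.sum_cons]
    by_cases hd : d = e.1
    · subst hd
      simp only [if_true]
      ring
    · rw [if_neg hd, if_neg (Ne.symm hd), if_neg (Ne.symm hd)]
      ring

theorem outer_eq (g h : ℕ → ℕ → ℤ) (l l' : List (ℕ × ℤ × ℤ)) (hl : ∀ e ∈ l, e.1 < 9)
    (hl' : ∀ e ∈ l', e.1 < 9) :
    (l.map fun e => (l'.map fun e' => g e.1 e'.1 * (e.2.1 * e'.2.1 + e.2.2 * e'.2.2) -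
      h e.1 e'.1 * (e.2.2 * e'.2.1 - e.2.1 * e'.2.2)).sum).sum =
      ∑ b ∈ range 9, ∑ d ∈ range 9, (g b d * (wr l b * wr l' d + wi l b * wi l' d) -
        h b d * (wi l b * wr l' d - wr l b * wi l' d)) := by
  induction l with
  | nil => simp [wr, wi]
  | cons e l ih =>
    have he : e.1 < 9 := hl e (by simp)
    rw [List.map_cons, List.sum_cons, ih fun e' he' => hl e' (by simp [he']),
      inner_eq (g e.1) (h e.1) e.2.1 e.2.2 l' hl']
    have key : ∑ d ∈ range 9, (g e.1 d * (e.2.1 * wr l' d + e.2.2 * wi l' d) -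
        h e.1 d * (e.2.2 * wr l' d - e.2.1 * wi l' d)) =
        ∑ b ∈ range 9, if b = e.1 then
          ∑ d ∈ range 9, (g b d * (e.2.1 * wr l' d + e.2.2 * wi l' d) -
        h b d * (e.2.2 * wr l' d - e.2.1 * wi l' d)) else 0 := by
      rw [Finset.sum_ite_eq' (range 9) e.1, if_pos (mem_range.2 he)]
    rw [key, ← Finset.sum_add_distrib]
    refine Finset.sum_congr rfl fun b _ => ?_
    by_cases hd : b = e.1
    · subst hd
      rw [if_pos rfl, ← Finset.sum_add_distrib]
      refine Finset.sum_congr rfl fun d _ => ?_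
      simp only [wr, wi, List.map_cons, List.sum_cons, if_true]
      ring
    · rw [if_neg hd, zero_add]
      refine Finset.sum_congr rfl fun d _ => ?_
      simp only [wr, wi, List.map_cons, List.sum_cons]
      rw [if_neg (Ne.symm hd), if_neg (Ne.symm hd)]
      ring

theorem en_zero : en 0 = [] := rfl

theorem kp_eq (t W k i j : ℕ) (hi : ∀ e ∈ en (col W i), e.1 < 9)
    (hj : ∀ e ∈ en (col W j), e.1 < 9) :
    kp t W k i j = ∑ b ∈ range 9, ∑ d ∈ range 9,
      (reA (av (rwo t k) b d) * (wr (en (col W i)) b * wr (en (col W j)) d +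
          wi (en (col W i)) b * wi (en (col W j)) d) -
        imA (av (rwo t k) b d) * (wi (en (col W i)) b * wr (en (col W j)) d -
          wr (en (col W i)) b * wi (en (col W j)) d)) := by
  rw [← outer_eq _ _ _ _ hi hj]
  have h0 : kap (rwo t k) (col W i) (col W j) =
      ((en (col W i)).map fun e => ((en (col W j)).map fun e' =>
        reA (av (rwo t k) e.1 e'.1) * (e.2.1 * e'.2.1 + e.2.2 * e'.2.2) -
      imA (av (rwo t k) e.1 e'.1) * (e.2.2 * e'.2.1 - e.2.1 * e'.2.2)).sum).sum := by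
    unfold kap
    simp only [lsum_eq, pr_eq]
  rw [← h0]
  unfold kp
  cases h1 : Nat.beq (col W i) 0
  · cases h2 : Nat.beq (col W j) 0
    · rfl
    · have : col W j = 0 := Nat.eq_of_beq_eq_true h2
      rw [this]
      simp [kap, en_zero, lsum_eq]
  · have : col W i = 0 := Nat.eq_of_beq_eq_true h1
    rw [this]
    simp [kap, en_zero, lsum_eq]

theorem triple_prod (a b c : ℕ → ℝ) (n : ℕ) :
    (∑ k ∈ range n, a k) * ((∑ i ∈ range n, b i) * ∑ j ∈ range n, c j) =
      ∑ k ∈ range n, ∑ i ∈ range n, ∑ j ∈ range n, a k * (b i * c j) := by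
  rw [Finset.sum_mul_sum, Finset.sum_mul]
  refine Finset.sum_congr rfl fun k _ => ?_
  rw [Finset.mul_sum]
  refine Finset.sum_congr rfl fun i _ => ?_
  rw [Finset.mul_sum]

theorem prod_expand (r m x x' y y' : ℕ → ℝ) (n : ℕ) :
    (∑ k ∈ range n, r k) * ((∑ i ∈ range n, x i) * (∑ i ∈ range n, x' i) +
        (∑ i ∈ range n, y i) * (∑ i ∈ range n, y' i)) -
      (∑ k ∈ range n, m k) * ((∑ i ∈ range n, y i) * (∑ i ∈ range n, x' i) -
        (∑ i ∈ range n, x i) * (∑ i ∈ range n, y' i)) =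
      ∑ k ∈ range n, ∑ i ∈ range n, ∑ j ∈ range n, (r k * (x i * x' j + y i * y' j) -
        m k * (y i * x' j - x i * y' j)) := by
  rw [mul_add, mul_sub, triple_prod, triple_prod, triple_prod, triple_prod]
  simp only [← Finset.sum_add_distrib, ← Finset.sum_sub_distrib]
  refine Finset.sum_congr rfl fun k _ => Finset.sum_congr rfl fun i _ =>
    Finset.sum_congr rfl fun j _ => ?_
  ring

theorem kp_sum (t W : ℕ) (v : ℕ → ℝ) (Re Im : ℕ → ℕ → ℝ)
    (hRe : ∀ b < 9, ∀ d < 9, ∑ k ∈ range 76, (reA (av (rwo t k) b d) : ℝ) * v k = Re b d)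
    (hIm : ∀ b < 9, ∀ d < 9, ∑ k ∈ range 76, (imA (av (rwo t k) b d) : ℝ) * v k = Im b d)
    (hW : ∀ i < 76, ∀ e ∈ en (col W i), e.1 < 9) (X Y : ℕ → ℝ)
    (hX : ∀ b, X b = ∑ i ∈ range 76, (wr (en (col W i)) b : ℝ) * v i)
    (hY : ∀ b, Y b = ∑ i ∈ range 76, (wi (en (col W i)) b : ℝ) * v i) :
    ∑ k ∈ range 76, ∑ i ∈ range 76, ∑ j ∈ range 76, (kp t W k i j : ℝ) * (v k * v i * v j) =
      ∑ b ∈ range 9, ∑ d ∈ range 9, (Re b d * (X b * X d + Y b * Y d) -
        Im b d * (Y b * X d - X b * Y d)) := by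
  have h1 : ∀ b ∈ range 9, ∀ d ∈ range 9, (Re b d * (X b * X d + Y b * Y d) -
        Im b d * (Y b * X d - X b * Y d)) =
      ∑ k ∈ range 76, ∑ i ∈ range 76, ∑ j ∈ range 76,
        (((reA (av (rwo t k) b d) * (wr (en (col W i)) b * wr (en (col W j)) d +
          wi (en (col W i)) b * wi (en (col W j)) d) -
        imA (av (rwo t k) b d) * (wi (en (col W i)) b * wr (en (col W j)) d -
          wr (en (col W i)) b * wi (en (col W j)) d) : ℤ)) : ℝ) * (v k * v i * v j) := by
    intro b hb d hd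
    rw [← hRe b (mem_range.1 hb) d (mem_range.1 hd), ← hIm b (mem_range.1 hb) d (mem_range.1 hd),
      hX b, hX d, hY b, hY d]
    rw [prod_expand]
    refine Finset.sum_congr rfl fun k _ => Finset.sum_congr rfl fun i _ =>
      Finset.sum_congr rfl fun j _ => ?_
    push_cast
    ring
  rw [Finset.sum_congr rfl fun b hb => Finset.sum_congr rfl fun d hd => h1 b hb d hd]
  have h2 : ∀ k ∈ range 76, ∀ i ∈ range 76, ∀ j ∈ range 76,
      (kp t W k i j : ℝ) * (v k * v i * v j) = ∑ b ∈ range 9, ∑ d ∈ range 9,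
        (((reA (av (rwo t k) b d) * (wr (en (col W i)) b * wr (en (col W j)) d +
          wi (en (col W i)) b * wi (en (col W j)) d) -
        imA (av (rwo t k) b d) * (wi (en (col W i)) b * wr (en (col W j)) d -
          wr (en (col W i)) b * wi (en (col W j)) d) : ℤ)) : ℝ) * (v k * v i * v j) := by
    intro k _ i hi j hj
    rw [kp_eq t W k i j (hW i (mem_range.1 hi)) (hW j (mem_range.1 hj))]
    push_cast
    simp only [Finset.sum_mul]
  rw [Finset.sum_congr rfl fun k hk => Finset.sum_congr rfl fun i hi =>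
    Finset.sum_congr rfl fun j hj => h2 k hk i hi j hj]
  -- move the sums over `b`, `d` to the front
  have h3 : ∀ G : ℕ → ℕ → ℕ → ℕ → ℕ → ℝ,
      ∑ k ∈ range 76, ∑ i ∈ range 76, ∑ j ∈ range 76, ∑ b ∈ range 9, ∑ d ∈ range 9, G k i j b d =
      ∑ b ∈ range 9, ∑ d ∈ range 9, ∑ k ∈ range 76, ∑ i ∈ range 76, ∑ j ∈ range 76,
        G k i j b d := by
    intro G
    have c1 : ∀ k i, ∑ j ∈ range 76, ∑ b ∈ range 9, ∑ d ∈ range 9, G k i j b d =
        ∑ b ∈ range 9, ∑ d ∈ range 9, ∑ j ∈ range 76, G k i j b d := by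
      intro k i
      rw [Finset.sum_comm]
      exact Finset.sum_congr rfl fun b _ => Finset.sum_comm
    have c2 : ∀ k, ∑ i ∈ range 76, ∑ j ∈ range 76, ∑ b ∈ range 9, ∑ d ∈ range 9, G k i j b d =
        ∑ b ∈ range 9, ∑ d ∈ range 9, ∑ i ∈ range 76, ∑ j ∈ range 76, G k i j b d := by
      intro k
      rw [Finset.sum_congr rfl fun i _ => c1 k i, Finset.sum_comm]
      exact Finset.sum_congr rfl fun b _ => Finset.sum_comm
    rw [Finset.sum_congr rfl fun k _ => c2 k, Finset.sum_comm]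
    exact Finset.sum_congr rfl fun b _ => Finset.sum_comm
  exact h3 _

/-- Linear form of twice the coefficient `(b, d)` of the second order form. -/
def qent (b d : ℕ) : List (ℕ × ℤ) :=
  [(tix (3 * (d / 3) + b % 3) (3 * (b / 3) + d % 3), 4),
    (tix (3 * (b / 3) + b % 3) (3 * (d / 3) + d % 3), -2)] ++
  (if b / 3 = d / 3 then [(tix (0 + b % 3) (0 + d % 3), -2), (tix (3 + b % 3) (3 + d % 3), -2),
    (tix (6 + b % 3) (6 + d % 3), -2)] else []) ++
  (if b % 3 = d % 3 then [(tix (3 * (b / 3) + 0) (3 * (d / 3) + 0), -2),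
    (tix (3 * (b / 3) + 1) (3 * (d / 3) + 1), -2), (tix (3 * (b / 3) + 2) (3 * (d / 3) + 2), -2)]
    else []) ++
  (if b = d then [(0, 10)] else [])

/-- Coefficient of index `k` in a sparse linear form. -/
def coef (k : ℕ) (l : List (ℕ × ℤ)) : ℤ := (l.map fun e => if e.1 = k then e.2 else 0).sum

theorem lev_eq_sum (v : ℕ → ℝ) (l : List (ℕ × ℤ)) (hl : ∀ e ∈ l, e.1 < 76) :
    lev v l = ∑ k ∈ range 76, (coef k l : ℝ) * v k := by
  induction l with
  | nil => simp [lev, coef]
  | cons e l ih =>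
    have he : e.1 < 76 := hl e (by simp)
    rw [lev_cons, ih fun e' he' => hl e' (by simp [he'])]
    have key : (e.2 : ℝ) * v e.1 = ∑ k ∈ range 76, if k = e.1 then (e.2 : ℝ) * v k else 0 := by
      rw [Finset.sum_ite_eq' (range 76) e.1, if_pos (mem_range.2 he)]
    rw [key, ← Finset.sum_add_distrib]
    refine Finset.sum_congr rfl fun k _ => ?_
    simp only [coef, List.map_cons, List.sum_cons]
    by_cases hk : k = e.1
    · subst hk
      simp only [if_true]
      push_cast
      ring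
    · rw [if_neg hk, if_neg (Ne.symm hk)]
      simp

/-- The table check. -/
noncomputable def chkQ : Bool :=
  (List.range 9).all fun b => (List.range 9).all fun d =>
    ((qent b d).all fun e => Nat.blt e.1 76) &&
    (List.range 76).all fun k => isz (Int.sub (reA (av (rwo 6 k) b d)) (coef k (qent b d))) &&
      isz (imA (av (rwo 6 k) b d))

theorem chkQ_true : chkQ = true := by decide +kernel

theorem isz_iff (z : ℤ) (h : isz z = true) : z = 0 := by
  cases z with
  | ofNat n =>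
    have : Nat.beq n 0 = true := h
    rw [Nat.eq_of_beq_eq_true this]
    rfl
  | negSucc n => exact absurd h (by simp [isz])

theorem tab (b d : ℕ) (hb : b < 9) (hd : d < 9) :
    (∀ e ∈ qent b d, e.1 < 76) ∧ ∀ k < 76, reA (av (rwo 6 k) b d) = coef k (qent b d) ∧
      imA (av (rwo 6 k) b d) = 0 := by
  have h := chkQ_true
  unfold chkQ at h
  rw [List.all_eq_true] at h
  have h1 := h b (List.mem_range.2 hb)
  rw [List.all_eq_true] at h1
  have h2 := h1 d (List.mem_range.2 hd)
  rw [Bool.and_eq_true] at h2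
  refine ⟨fun e he => ?_, fun k hk => ?_⟩
  · have := List.all_eq_true.1 h2.1 e he
    exact Nat.le_of_ble_eq_true this
  · have h3 := List.all_eq_true.1 h2.2 k (List.mem_range.2 hk)
    rw [Bool.and_eq_true] at h3
    have h4 : reA (av (rwo 6 k) b d) - coef k (qent b d) = 0 := isz_iff _ h3.1
    exact ⟨by linarith, isz_iff _ h3.2⟩

/-- Coefficient of the second order form. -/
noncomputable def qc (R : T6') (a α b β : Fin 3) : ℝ :=
  (2 * bT R b α a β - bT R a α b β) - (if a = b then ∑ c, bT R c α c β else 0)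
    - (if α = β then ∑ γ, bT R a γ b γ else 0) + (if a = b ∧ α = β then 5 else 0)

theorem bQ_qc (R : T6') (x : Fin 3 → Fin 3 → ℝ) :
    bQ R x = ∑ a, ∑ α, ∑ b, ∑ β, qc R a α b β * (x a α * x b β) := by
  simp only [bQ, qc, Fin.sum_univ_three]
  simp [Fin.ext_iff]
  ring

theorem lev_qent {S : T6'} (h : Best S) (a α b β : Fin 3) :
    lev (cv 1 S) (qent (3 * a + α) (3 * b + β)) = 2 * qc S a α b β := by
  have e := cv_tix h.alg 1
  have h1 := a.isLt
  have h2 := α.isLt
  have h3 := b.isLt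
  have h4 := β.isLt
  have d1 : (3 * (a : ℕ) + α) / 3 = a := by omega
  have d2 : (3 * (a : ℕ) + α) % 3 = α := by omega
  have d3 : (3 * (b : ℕ) + β) / 3 = b := by omega
  have d4 : (3 * (b : ℕ) + β) % 3 = β := by omega
  have c1 : (3 * (a : ℕ) + α = 3 * b + β) ↔ (a = b ∧ α = β) := by
    rw [Fin.ext_iff, Fin.ext_iff]; omega
  have c2 : ((a : ℕ) = b) ↔ a = b := by rw [Fin.ext_iff]
  have c3 : ((α : ℕ) = β) ↔ α = β := by rw [Fin.ext_iff]
  have t0 : cv 1 S (tix (0 + α) (0 + β)) = bT S 0 α 0 β := e 0 α 0 β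
  have t1 : cv 1 S (tix (3 + α) (3 + β)) = bT S 1 α 1 β := e 1 α 1 β
  have t2 : cv 1 S (tix (6 + α) (6 + β)) = bT S 2 α 2 β := e 2 α 2 β
  have u0 : cv 1 S (tix (3 * a + 0) (3 * b + 0)) = bT S a 0 b 0 := e a 0 b 0
  have u1 : cv 1 S (tix (3 * a + 1) (3 * b + 1)) = bT S a 1 b 1 := e a 1 b 1
  have u2 : cv 1 S (tix (3 * a + 2) (3 * b + 2)) = bT S a 2 b 2 := e a 2 b 2
  have z : cv 1 S 0 = 1 := rfl
  unfold qent
  simp only [d1, d2, d3, d4, c1, c2, c3, lev_append, lev_cons, lev_nil]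
  by_cases p : a = b <;> by_cases q : α = β <;>
    simp only [p, q, and_self, and_true, and_false, if_true, if_false,
      lev_cons, lev_nil, qc, Fin.sum_univ_three] at * <;>
    simp only [e, t0, t1, t2, u0, u1, u2, z] <;> push_cast <;> ring

theorem sum9 (g : ℕ → ℝ) :
    ∑ b ∈ range 9, g b = ∑ a : Fin 3, ∑ α : Fin 3, g (3 * a + α) := by
  simp [Finset.sum_range_succ, Fin.sum_univ_three]
  ring

/-- The Q-terms of the certificate are nonnegative at a best splitting. -/
theorem kp6_nonneg {S : T6'} (h : Best S) (W : ℕ)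
    (hW : ∀ i < 76, ∀ e ∈ en (col W i), e.1 < 9) :
    0 ≤ ∑ k ∈ range 76, ∑ i ∈ range 76, ∑ j ∈ range 76,
      (kp 6 W k i j : ℝ) * (cv 1 S k * cv 1 S i * cv 1 S j) := by
  obtain ⟨X, hX⟩ : ∃ X : ℕ → ℝ, ∀ b, X b = ∑ i ∈ range 76, (wr (en (col W i)) b : ℝ) * cv 1 S i :=
    ⟨_, fun _ => rfl⟩
  obtain ⟨Y, hY⟩ : ∃ Y : ℕ → ℝ, ∀ b, Y b = ∑ i ∈ range 76, (wi (en (col W i)) b : ℝ) * cv 1 S i :=
    ⟨_, fun _ => rfl⟩
  rw [kp_sum 6 W (cv 1 S) (fun b d => lev (cv 1 S) (qent b d)) (fun _ _ => 0) ?_ ?_ hW X Y hX hY]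
  · have key : ∑ b ∈ range 9, ∑ d ∈ range 9, (lev (cv 1 S) (qent b d) * (X b * X d + Y b * Y d) -
        0 * (Y b * X d - X b * Y d)) =
        2 * bQ S (fun a α => X (3 * a + α)) + 2 * bQ S (fun a α => Y (3 * a + α)) := by
      rw [sum9]
      simp only [sum9, lev_qent h, bQ_qc, Finset.mul_sum, ← Finset.sum_add_distrib]
      refine Finset.sum_congr rfl fun a _ => Finset.sum_congr rfl fun α _ =>
        Finset.sum_congr rfl fun b _ => Finset.sum_congr rfl fun β _ => ?_
      ring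
    rw [key]
    have h1 := bQ_nonneg h (fun a α => X (3 * a + α))
    have h2 := bQ_nonneg h (fun a α => Y (3 * a + α))
    linarith
  · intro b hb d hd
    rw [lev_eq_sum _ _ (tab b d hb hd).1]
    refine Finset.sum_congr rfl fun k hk => ?_
    rw [((tab b d hb hd).2 k (mem_range.1 hk)).1]
  · intro b hb d hd
    refine Finset.sum_eq_zero fun k hk => ?_
    rw [((tab b d hb hd).2 k (mem_range.1 hk)).2]
    simp

/-- Check of the row indices of the Q-lines. -/
noncomputable def chkW (W : ℕ) : Bool :=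
  (List.range 76).all fun i => (en (col W i)).all fun e => Nat.blt e.1 9

theorem chkW_spec (W : ℕ) (h : chkW W = true) : ∀ i < 76, ∀ e ∈ en (col W i), e.1 < 9 := by
  intro i hi e he
  unfold chkW at h
  rw [List.all_eq_true] at h
  have h1 := h i (List.mem_range.2 hi)
  rw [List.all_eq_true] at h1
  exact Nat.le_of_ble_eq_true (h1 e he)

theorem chkTms_true :
    (tms.all fun t => bif Nat.beq t.1 6 then chkW t.2.2 else true) = true := by decide +kernel

/-- The Q-terms of the list `tms` are nonnegative at a best splitting. -/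
theorem tms6_nonneg {S : T6'} (h : Best S) (t : ℕ × ℕ × ℕ) (ht : t ∈ tms) (h6 : t.1 = 6) :
    0 ≤ ∑ k ∈ range 76, ∑ i ∈ range 76, ∑ j ∈ range 76,
      (kp t.1 t.2.2 k i j : ℝ) * (cv 1 S k * cv 1 S i * cv 1 S j) := by
  have h1 := List.all_eq_true.1 chkTms_true t ht
  rw [h6] at h1 ⊢
  exact kp6_nonneg h t.2.2 (chkW_spec _ h1)

end T3

end HopfKC
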