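import Pool.Agent.Lib.H87.HopfKC.Cert.RowK
import Pool.Agent.Lib.H87.HopfKC.Cert.Gen
import Pool.Agent.Lib.H79.HopfT3
import Pool.Agent.Lib.EinsteinSix.Geo

/-!
# Soundness of real term types for arbitrary packed rows

`ckG r n L` checks that the packed rows `r` are the lists `L`; then the cubic form of the tensor
`kpg r W` is the real quadratic form with matrix `lev v (L b d)` at the real and at the imaginary
part of the vector `wv W v`. Instances: slices, the second order form, real sectional curvatures,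
the global optimality form.
-/

open Finset

namespace HopfKC

namespace NT

open T3 (coef lev_eq_sum)

/-- Check that the packed rows are given by lists of real linear forms. -/
noncomputable def ckG (r : ℕ → ℕ) (n : ℕ) (L : ℕ → ℕ → List (ℕ × ℤ)) : Bool :=
  (List.range n).all fun b => (List.range n).all fun d =>
    ((L b d).all fun e => Nat.blt e.1 76) &&
    (List.range 76).all fun k => isz (Int.sub (reA (av (r k) b d)) (coef k (L b d))) &&
      isz (imA (av (r k) b d))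

/-- Check of the row indices. -/
noncomputable def ckR (n W : ℕ) : Bool :=
  (List.range 76).all fun i => (en (col W i)).all fun e => Nat.blt e.1 n

theorem ckR_spec {n W : ℕ} (h : ckR n W = true) : ∀ i < 76, ∀ e ∈ en (col W i), e.1 < n := by
  intro i hi e he
  unfold ckR at h
  rw [List.all_eq_true] at h
  have h1 := h i (List.mem_range.2 hi)
  rw [List.all_eq_true] at h1
  exact Nat.le_of_ble_eq_true (h1 e he)

theorem avg_of_ck {r : ℕ → ℕ} {n : ℕ} {L : ℕ → ℕ → List (ℕ × ℤ)} (h : ckG r n L = true)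
    (v : ℕ → ℝ) {b d : ℕ} (hb : b < n) (hd : d < n) :
    Avg r v b d = ((lev v (L b d) : ℝ) : ℂ) := by
  unfold ckG at h
  have h1 := List.all_eq_true.1 (List.all_eq_true.1 h b (List.mem_range.2 hb)) d
    (List.mem_range.2 hd)
  rw [Bool.and_eq_true] at h1
  have hl : ∀ e ∈ L b d, e.1 < 76 := fun e he =>
    Nat.le_of_ble_eq_true (List.all_eq_true.1 h1.1 e he)
  rw [lev_eq_sum v _ hl]
  unfold Avg
  push_cast
  refine Finset.sum_congr rfl fun k hk => ?_
  have h2 := List.all_eq_true.1 h1.2 k (List.mem_range.2 (mem_range.1 hk))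
  rw [Bool.and_eq_true, isz_iff, isz_iff] at h2
  have h3 : reA (av (r k) b d) = coef k (L b d) := sub_eq_zero.1 h2.1
  rw [avd_eq, h3, h2.2]
  push_cast
  ring

/-- Quadratic form of a table of lists. -/
noncomputable def QF (L : ℕ → ℕ → List (ℕ × ℤ)) (n : ℕ) (v x : ℕ → ℝ) : ℝ :=
  ∑ b ∈ range n, ∑ d ∈ range n, lev v (L b d) * (x b * x d)

theorem kpg_real {r : ℕ → ℕ} {n : ℕ} {L : ℕ → ℕ → List (ℕ × ℤ)} (h : ckG r n L = true)
    {W : ℕ} (hW : ckR n W = true) (v : ℕ → ℝ) :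
    ∑ k ∈ range 76, ∑ i ∈ range 76, ∑ j ∈ range 76, ((kpg r W k i j : ℤ) : ℝ) *
      (v k * v i * v j) =
    QF L n v (fun b => (wv W v b).re) + QF L n v (fun b => (wv W v b).im) := by
  rw [kpg_sum n r W (ckR_spec hW) v, Complex.re_sum]
  unfold QF
  rw [← Finset.sum_add_distrib]
  refine Finset.sum_congr rfl fun b hb => ?_
  rw [Complex.re_sum, ← Finset.sum_add_distrib]
  refine Finset.sum_congr rfl fun d hd => ?_
  rw [avg_of_ck h v (mem_range.1 hb) (mem_range.1 hd)]
  simp only [Complex.mul_re, Complex.mul_im, Complex.ofReal_re, Complex.ofReal_im,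
    Complex.conj_re, Complex.conj_im]
  ring

/-! ### Slices -/

/-- The linear form `α v_0 + β trT`. -/
def sliceL (α β : ℤ) : List (ℕ × ℤ) :=
  [(0, α), (1, β), (10, β), (18, β), (25, β), (31, β), (36, β), (40, β), (43, β), (45, β)]

theorem lev_slice {R : T6'} (hA : HopfSix.IsAlgCurv R) (c : ℝ) (α β : ℤ) :
    lev (cv c R) (sliceL α β) = α * c + β * trT R := by
  have h := cv_diag hA c
  have z : cv c R 0 = c := rfl
  simp only [diag5, sliceL, lev_cons, lev_nil, z] at h ⊢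
  push_cast at h ⊢
  linear_combination (-(β : ℝ)) * h

theorem slice_nonneg {R : T6'} (hA : HopfSix.IsAlgCurv R) {r : ℕ → ℕ} {α β : ℤ}
    (h : ckG r 1 (fun _ _ => sliceL α β) = true) {W : ℕ} (hW : ckR 1 W = true) {c : ℝ}
    (h0 : 0 ≤ α * c + β * trT R) :
    0 ≤ ∑ k ∈ range 76, ∑ i ∈ range 76, ∑ j ∈ range 76, ((kpg r W k i j : ℤ) : ℝ) *
      (cv c R k * cv c R i * cv c R j) := by
  rw [kpg_real h hW]
  unfold QF
  simp only [Finset.sum_range_one, lev_slice hA]
  have h1 := mul_nonneg h0 (mul_self_nonneg (wv W (cv c R) 0).re)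
  have h2 := mul_nonneg h0 (mul_self_nonneg (wv W (cv c R) 0).im)
  linarith

/-! ### The second order form -/

theorem QF_qent {S : T6'} (h : Best S) (x : ℕ → ℝ) :
    QF T3.qent 9 (cv 1 S) x = 2 * bQ S (fun a α => x (3 * a + α)) := by
  unfold QF
  rw [T3.sum9]
  simp only [T3.sum9, T3.lev_qent h, T3.bQ_qc, Finset.mul_sum]
  refine Finset.sum_congr rfl fun a _ => Finset.sum_congr rfl fun α _ =>
    Finset.sum_congr rfl fun b _ => Finset.sum_congr rfl fun β _ => ?_
  ring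

theorem q_nonneg {S : T6'} (hS : Best S) {r : ℕ → ℕ} (h : ckG r 9 T3.qent = true) {W : ℕ}
    (hW : ckR 9 W = true) :
    0 ≤ ∑ k ∈ range 76, ∑ i ∈ range 76, ∑ j ∈ range 76, ((kpg r W k i j : ℤ) : ℝ) *
      (cv 1 S k * cv 1 S i * cv 1 S j) := by
  rw [kpg_real h hW, QF_qent hS, QF_qent hS]
  have h1 := bQ_nonneg hS (fun a α => (wv W (cv 1 S) (3 * a + α)).re)
  have h2 := bQ_nonneg hS (fun a α => (wv W (cv 1 S) (3 * a + α)).im)
  linarith

/-! ### Sectional curvatures -/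

/-- Scaling of a sparse linear form. -/
def scl (s : ℤ) (l : List (ℕ × ℤ)) : List (ℕ × ℤ) := l.map fun e => (e.1, s * e.2)

theorem lev_scl (v : ℕ → ℝ) (s : ℤ) (l : List (ℕ × ℤ)) : lev v (scl s l) = s * lev v l :=
  lev_scale v s l

/-- Natural number as an index. -/
def fi (b : ℕ) : Fin 6 := Fin.ofNat 6 b

theorem fi_val (b : Fin 6) : fi b = b := by
  unfold fi
  simp

theorem lev_flatMap {α : Type} (v : ℕ → ℝ) (l : List α) (f : α → List (ℕ × ℤ)) :
    lev v (l.flatMap f) = (l.map fun a => lev v (f a)).sum := by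
  induction l with
  | nil => simp [lev]
  | cons a l ih => rw [List.flatMap_cons, lev_append, ih, List.map_cons, List.sum_cons]

theorem sum_finRange (f : Fin 6 → ℝ) : ((List.finRange 6).map f).sum = ∑ i, f i := by
  rw [← List.ofFn_eq_map, List.sum_ofFn]

/-- Twice the linear form `R(x, b, x, d)`. -/
def kfL (x : Fin 6 → ℤ) (b d : Fin 6) : List (ℕ × ℤ) :=
  (List.finRange 6).flatMap fun i => if x i = 0 then [] else
    (List.finRange 6).flatMap fun k => if x k = 0 then [] else scl (x i * x k) (ent i b k d)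

theorem lev_kfL {c : ℝ} {R : T6'} (h : Lin c R) (x : Fin 6 → ℤ) (b d : Fin 6) :
    lev (cv c R) (kfL x b d) = 2 * ∑ i, ∑ k, (x i : ℝ) * x k * R i b k d := by
  unfold kfL
  rw [lev_flatMap, sum_finRange, Finset.mul_sum]
  refine Finset.sum_congr rfl fun i _ => ?_
  by_cases hi : x i = 0
  · simp [hi, lev]
  · rw [if_neg hi, lev_flatMap, sum_finRange, Finset.mul_sum]
    refine Finset.sum_congr rfl fun k _ => ?_
    by_cases hk : x k = 0
    · simp [hk, lev]
    · rw [if_neg hk, lev_scl, lev_ent h]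
      push_cast
      ring

theorem QF_fin (L : Fin 6 → Fin 6 → List (ℕ × ℤ)) (v x : ℕ → ℝ) :
    QF (fun b d => L (fi b) (fi d)) 6 v x =
      ∑ b : Fin 6, ∑ d : Fin 6, lev v (L b d) * (x b * x d) := by
  unfold QF
  rw [Finset.sum_range]
  refine Finset.sum_congr rfl fun b _ => ?_
  rw [Finset.sum_range]
  refine Finset.sum_congr rfl fun d _ => ?_
  simp only [fi_val]

theorem QF_kfL {c : ℝ} {R : T6'} (h : Lin c R) (x : Fin 6 → ℤ) (w : ℕ → ℝ) :
    QF (fun b d => kfL x (fi b) (fi d)) 6 (cv c R) w =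
      2 * EinsteinSix.Kf R (fun i => (x i : ℝ)) (fun i => w i) := by
  rw [QF_fin]
  simp only [lev_kfL h, EinsteinSix.Kf, Finset.mul_sum, Finset.sum_mul]
  calc ∑ b : Fin 6, ∑ d : Fin 6, ∑ i : Fin 6, ∑ k : Fin 6,
        2 * ((x i : ℝ) * x k * R i b k d) * (w b * w d) =
      ∑ b : Fin 6, ∑ i : Fin 6, ∑ d : Fin 6, ∑ k : Fin 6,
        2 * ((x i : ℝ) * x k * R i b k d) * (w b * w d) :=
        Finset.sum_congr rfl fun b _ => Finset.sum_comm
    _ = ∑ i : Fin 6, ∑ b : Fin 6, ∑ d : Fin 6, ∑ k : Fin 6,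
        2 * ((x i : ℝ) * x k * R i b k d) * (w b * w d) := Finset.sum_comm
    _ = ∑ i : Fin 6, ∑ b : Fin 6, ∑ k : Fin 6, ∑ d : Fin 6,
        2 * ((x i : ℝ) * x k * R i b k d) * (w b * w d) :=
        Finset.sum_congr rfl fun i _ => Finset.sum_congr rfl fun b _ => Finset.sum_comm
    _ = _ := Finset.sum_congr rfl fun i _ => Finset.sum_congr rfl fun b _ =>
        Finset.sum_congr rfl fun k _ => Finset.sum_congr rfl fun d _ => by ring

theorem sec_nonneg {S : T6'} (hS : EinsteinSix.AdmE S) (x : Fin 6 → ℤ) {r : ℕ → ℕ}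
    (h : ckG r 6 (fun b d => kfL x (fi b) (fi d)) = true) {W : ℕ} (hW : ckR 6 W = true) :
    0 ≤ ∑ k ∈ range 76, ∑ i ∈ range 76, ∑ j ∈ range 76, ((kpg r W k i j : ℤ) : ℝ) *
      (cv 1 S k * cv 1 S i * cv 1 S j) := by
  rw [kpg_real h hW, QF_kfL hS.lin, QF_kfL hS.lin]
  have h1 := hS.sec (fun i => (x i : ℝ)) (fun i => (wv W (cv 1 S) i).re)
  have h2 := hS.sec (fun i => (x i : ℝ)) (fun i => (wv W (cv 1 S) i).im)
  have e1 : ∀ y : Fin 6 → ℝ, 0 ≤ ∑ i, ∑ j, ∑ k, ∑ l, S i j k l * (x i : ℝ) * y j * (x k : ℝ) * y l →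
      0 ≤ EinsteinSix.Kf S (fun i => (x i : ℝ)) y := fun y hy => hy
  have h3 := e1 _ h1
  have h4 := e1 _ h2
  linarith

/-! ### Global optimality -/

/-- Twice `K(x, y)` as a linear form. -/
def kfV (x y : Fin 6 → ℤ) : List (ℕ × ℤ) :=
  (List.finRange 6).flatMap fun b => if y b = 0 then [] else
    (List.finRange 6).flatMap fun d => if y d = 0 then [] else scl (y b * y d) (kfL x b d)

/-- Square norm. -/
def nsq (x : Fin 6 → ℤ) : ℤ := x 0 * x 0 + x 1 * x 1 + x 2 * x 2 + x 3 * x 3 + x 4 * x 4 + x 5 * x 5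

/-- Linear forms of the matrix of the global optimality form (twice). -/
def plL (x y : Fin 6 → ℤ) (b d : Fin 6) : List (ℕ × ℤ) :=
  (if b = d then scl (nsq x * nsq y) (sliceL 15 (-1)) ++ scl (-1) (kfV x y) else []) ++
    (scl (-nsq y) (kfL x b d) ++ scl (-nsq x) (kfL y b d))

theorem lev_kfV {c : ℝ} {R : T6'} (h : Lin c R) (x y : Fin 6 → ℤ) :
    lev (cv c R) (kfV x y) =
      2 * EinsteinSix.Kf R (fun i => (x i : ℝ)) (fun i => (y i : ℝ)) := by
  have h1 := QF_kfL h x (fun i => (y (fi i) : ℝ))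
  simp only [fi_val] at h1
  rw [← h1, QF_fin]
  unfold kfV
  rw [lev_flatMap, sum_finRange]
  refine Finset.sum_congr rfl fun b _ => ?_
  simp only [fi_val]
  by_cases hb : y b = 0
  · simp [hb, lev]
  · rw [if_neg hb, lev_flatMap, sum_finRange]
    refine Finset.sum_congr rfl fun d _ => ?_
    by_cases hd : y d = 0
    · simp [hd, lev]
    · rw [if_neg hd, lev_scl]
      push_cast
      ring

theorem nsq_cast (x : Fin 6 → ℤ) : ((nsq x : ℤ) : ℝ) = ∑ i, (x i : ℝ) ^ 2 := by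
  unfold nsq
  rw [Fin.sum_univ_six]
  push_cast
  ring

theorem QF_plL {S : T6'} (h : Lin 1 S) (x y : Fin 6 → ℤ) (w : ℕ → ℝ) :
    QF (fun b d => plL x y (fi b) (fi d)) 6 (cv 1 S) w =
      2 * (H91.Split.ell S * ((∑ i, (x i : ℝ) ^ 2) * (∑ i, (y i : ℝ) ^ 2) * ∑ i : Fin 6, w i ^ 2) -
        (EinsteinSix.Kf S (fun i => (x i : ℝ)) (fun i => (y i : ℝ)) * ∑ i : Fin 6, w i ^ 2 +
          EinsteinSix.Kf S (fun i => (x i : ℝ)) (fun i => w i) * ∑ i, (y i : ℝ) ^ 2 +
          EinsteinSix.Kf S (fun i => (y i : ℝ)) (fun i => w i) * ∑ i, (x i : ℝ) ^ 2)) := by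
  have hx := QF_kfL h x w
  have hy := QF_kfL h y w
  rw [QF_fin] at hx hy ⊢
  have hv := lev_kfV h x y
  have hs := lev_slice h.alg 1 15 (-1)
  have he := EinsteinSix.ell_trT h
  have e1 : ∀ b d : Fin 6, lev (cv 1 S) (plL x y b d) * (w b * w d) =
      (if b = d then ((nsq x : ℝ) * (nsq y : ℝ) * (2 * H91.Split.ell S) -
        2 * EinsteinSix.Kf S (fun i => (x i : ℝ)) (fun i => (y i : ℝ))) * (w b * w d) else 0) +
        (-(nsq y : ℝ) * (lev (cv 1 S) (kfL x b d) * (w b * w d)) -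
          (nsq x : ℝ) * (lev (cv 1 S) (kfL y b d) * (w b * w d))) := by
    intro b d
    unfold plL
    rw [lev_append, lev_append, lev_scl, lev_scl]
    by_cases hbd : b = d
    · rw [if_pos hbd, if_pos hbd, lev_append, lev_scl, lev_scl, hs, hv, he]
      push_cast
      ring
    · rw [if_neg hbd, if_neg hbd, lev_nil]
      push_cast
      ring
  simp only [e1, Finset.sum_add_distrib, Finset.sum_sub_distrib, ← Finset.mul_sum, hx, hy]
  rw [nsq_cast, nsq_cast]
  have e2 : ∀ K : ℝ, ∑ b : Fin 6, ∑ d : Fin 6, (if b = d then K * (w b * w d) else 0) =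
      K * ∑ i : Fin 6, w i ^ 2 := by
    intro K
    rw [Finset.mul_sum]
    refine Finset.sum_congr rfl fun b _ => ?_
    rw [Finset.sum_ite_eq, if_pos (Finset.mem_univ b)]
    ring
  rw [e2]
  ring

/-- Integer vector as a function of a natural number. -/
def xN (x : Fin 6 → ℤ) (b : ℕ) : ℤ := if b < 6 then x (fi b) else 0

/-- Check that all columns are orthogonal to `x`. -/
noncomputable def ckO (x : Fin 6 → ℤ) (W : ℕ) : Bool :=
  (List.range 76).all fun i =>
    isz (lsum (en (col W i)) fun e => Int.mul (xN x e.1) e.2.1) &&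
    isz (lsum (en (col W i)) fun e => Int.mul (xN x e.1) e.2.2)

theorem xc_orth {x : Fin 6 → ℤ} {W : ℕ} (h : ckO x W = true) (hW : ckR 6 W = true) {i : ℕ}
    (hi : i < 76) : ∑ b ∈ range 6, (xN x b : ℂ) * xc W i b = 0 := by
  unfold ckO at h
  have h1 := List.all_eq_true.1 h i (List.mem_range.2 hi)
  rw [Bool.and_eq_true, isz_iff, isz_iff, lsum_eq, lsum_eq] at h1
  have h2 := sum_ite_list 6 (fun b => (xN x b : ℂ)) vl (en (col W i)) (ckR_spec hW i hi)
  unfold xc
  rw [h2]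
  have h3 : ∀ l : List (ℕ × ℤ × ℤ), (l.map fun e => (xN x e.1 : ℂ) * vl e.2).sum =
      (((l.map fun e => Int.mul (xN x e.1) e.2.1).sum : ℤ) : ℂ) +
        (((l.map fun e => Int.mul (xN x e.1) e.2.2).sum : ℤ) : ℂ) * Complex.I := by
    intro l
    induction l with
    | nil => simp
    | cons a l ih =>
      simp only [List.map_cons, List.sum_cons]
      rw [ih]
      have e1 : Int.mul (xN x a.1) a.2.1 = xN x a.1 * a.2.1 := rfl
      have e2 : Int.mul (xN x a.1) a.2.2 = xN x a.1 * a.2.2 := rfl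
      rw [e1, e2]
      unfold vl
      push_cast
      ring
  rw [h3, h1.1, h1.2]
  simp

theorem wv_orth {x : Fin 6 → ℤ} {W : ℕ} (h : ckO x W = true) (hW : ckR 6 W = true)
    (v : ℕ → ℝ) : (∑ b : Fin 6, (x b : ℝ) * (wv W v b).re = 0) ∧
      ∑ b : Fin 6, (x b : ℝ) * (wv W v b).im = 0 := by
  have h1 : ∑ b : Fin 6, ((x b : ℝ) : ℂ) * wv W v b = 0 := by
    have h2 : ∑ b : Fin 6, ((x b : ℝ) : ℂ) * wv W v b =
        ∑ b ∈ range 6, (xN x b : ℂ) * wv W v b := by
      rw [Finset.sum_range]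
      refine Finset.sum_congr rfl fun b _ => ?_
      unfold xN
      rw [if_pos b.isLt, fi_val]
      push_cast
      ring
    rw [h2]
    unfold wv
    simp only [Finset.mul_sum]
    rw [Finset.sum_comm]
    refine Finset.sum_eq_zero fun i hi => ?_
    have h3 := xc_orth h hW (mem_range.1 hi)
    calc ∑ b ∈ range 6, (xN x b : ℂ) * (xc W i b * (v i : ℂ)) =
        (∑ b ∈ range 6, (xN x b : ℂ) * xc W i b) * (v i : ℂ) := by
          rw [Finset.sum_mul]
          exact Finset.sum_congr rfl fun b _ => by ring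
      _ = 0 := by rw [h3, zero_mul]
  constructor
  · have h2 := congrArg Complex.re h1
    rw [Complex.re_sum] at h2
    simpa only [Complex.re_ofReal_mul, Complex.zero_re] using h2
  · have h2 := congrArg Complex.im h1
    rw [Complex.im_sum] at h2
    simpa only [Complex.im_ofReal_mul, Complex.zero_im] using h2

theorem pl_nonneg {S : T6'} (hS : EinsteinSix.AdmE S) (x y : Fin 6 → ℤ)
    (hxy : ∑ i, x i * y i = 0) {r : ℕ → ℕ}
    (h : ckG r 6 (fun b d => plL x y (fi b) (fi d)) = true) {W : ℕ} (hW : ckR 6 W = true)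
    (hx : ckO x W = true) (hy : ckO y W = true) :
    0 ≤ ∑ k ∈ range 76, ∑ i ∈ range 76, ∑ j ∈ range 76, ((kpg r W k i j : ℤ) : ℝ) *
      (cv 1 S k * cv 1 S i * cv 1 S j) := by
  rw [kpg_real h hW, QF_plL hS.lin, QF_plL hS.lin]
  have hxy' : ∑ i, (x i : ℝ) * y i = 0 := by exact_mod_cast hxy
  obtain ⟨a1, a2⟩ := wv_orth hx hW (cv 1 S)
  obtain ⟨b1, b2⟩ := wv_orth hy hW (cv 1 S)
  have h1 := EinsteinSix.pl_ineq hS.mx (fun i => (x i : ℝ)) (fun i => (y i : ℝ))
    (fun i => (wv W (cv 1 S) i).re) hxy' a1 b1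
  have h2 := EinsteinSix.pl_ineq hS.mx (fun i => (x i : ℝ)) (fun i => (y i : ℝ))
    (fun i => (wv W (cv 1 S) i).im) hxy' a2 b2
  linarith

end NT

end HopfKC
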